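import Pool.Agent.H37.CNL.Stmts
import Pool.Agent.H80.CNK.DRH
import Pool.Agent.H91.CNK.DRP

/-!
# Board `cnl`, row PEE (helper62): existence of the derivation for the subgroups of the wild inertia group

`Δ = (s / Δ₀ s) Δ₀`; the orders: `x = ∑ c_i ^ p s ^ i` (eigenspaces of `Δ`, `KEP`), `c_i` in `L^H`, and the orders of
the terms are distinct modulo `p |H|` (`VEC`).
-/

set_option autoImplicit false

namespace Pool.CND

open Finset

private theorem pee_spow {L : Type} [Field L] (Δ : L → L)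
    (hmul : ∀ x y : L, Δ (x * y) = x * Δ y + y * Δ x) (s : L) (hs : Δ s = s) (n : ℕ) :
    Δ (s ^ n) = (n : L) * s ^ n := by
  induction n with
  | zero =>
    have h := hmul 1 1
    rw [mul_one, one_mul] at h
    have h2 : Δ (1 : L) = 0 := by linear_combination -h
    rw [pow_zero, h2, Nat.cast_zero, zero_mul]
  | succ n ih =>
    rw [pow_succ, hmul, ih, hs]
    push_cast
    ring

/-- the `p`-th iterate of a derivation -/
private theorem pee_iter {p : ℕ} {L : Type} [Field L] [CharP L p] (hp : p.Prime) (D : L →+ L)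
    (hDm : ∀ x y : L, D (x * y) = x * D y + y * D x) :
    (∀ x y : L, D^[p] (x + y) = D^[p] x + D^[p] y) ∧
      ∀ x y : L, D^[p] (x * y) = x * D^[p] y + y * D^[p] x := by
  have hadd : ∀ (n : ℕ) (x y : L), D^[n] (x + y) = D^[n] x + D^[n] y := by
    intro n
    induction n with
    | zero => intro x y; rfl
    | succ n ih => intro x y; rw [Function.iterate_succ_apply', ih, map_add,
        Function.iterate_succ_apply', Function.iterate_succ_apply']
  refine ⟨hadd p, ?_⟩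
  intro x y
  rw [drp_leib D hDm p x y]
  have hne : ((0, p) : ℕ × ℕ) ≠ (p, 0) := by
    intro h
    exact hp.ne_zero (Prod.ext_iff.mp h).2
  rw [← Finset.sum_subset (s₁ := {((0, p) : ℕ × ℕ), (p, 0)})]
  · rw [Finset.sum_pair hne]
    simp [mul_comm]
  · intro a ha
    rw [Finset.mem_insert, Finset.mem_singleton] at ha
    rw [HasAntidiagonal.mem_antidiagonal]
    rcases ha with rfl | rfl <;> simp
  · intro a ha hna
    rw [HasAntidiagonal.mem_antidiagonal] at ha
    rw [Finset.mem_insert, Finset.mem_singleton, not_or] at hna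
    have h1 : a.1 ≠ 0 := by
      intro h
      apply hna.1
      ext
      · exact h
      · simp; omega
    have h2 : a.1 ≠ p := by
      intro h
      apply hna.2
      ext
      · exact h
      · simp; omega
    have h3 : p ∣ p.choose a.1 := hp.dvd_choose_self h1 (by omega)
    have h4 : ((p.choose a.1 : ℕ) : L) = 0 := (CharP.cast_eq_zero_iff L p _).mpr h3
    rw [nsmul_eq_mul, h4, zero_mul]

/-- a derivation which kills `s` is zero -/
private theorem pee_zero (hDRU : S_DRU) {k L G : Type} [Field k] [Field L] [Algebra k L]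
    [Group G] [Finite G] (ρ : G →* (L ≃ₐ[k] L)) (t s : L) (Δ₀ D : L → L) (hcov : IsCover ρ t)
    (hΔ₀ : DD k t Δ₀) (hs1 : Δ₀ s ≠ 0) (hadd : ∀ x y, D (x + y) = D x + D y)
    (hmul : ∀ x y, D (x * y) = x * D y + y * D x) (hcon : ∀ c : k, D (algebraMap k L c) = 0)
    (hDs : D s = 0) (ht0 : t ≠ 0) : ∀ x, D x = 0 := by
  have h1 : ∀ x, D x - D t / t * Δ₀ x = 0 := by
    refine hDRU k L G ρ t (fun x => D x - D t / t * Δ₀ x) hcov ?_ ?_ ?_ ?_
    · intro x y
      show D (x + y) - D t / t * Δ₀ (x + y) = (D x - D t / t * Δ₀ x) + (D y - D t / t * Δ₀ y)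
      rw [hadd, hΔ₀.add]
      ring
    · intro x y
      show D (x * y) - D t / t * Δ₀ (x * y) =
        x * (D y - D t / t * Δ₀ y) + y * (D x - D t / t * Δ₀ x)
      rw [hmul, hΔ₀.mul]
      ring
    · intro c
      show D (algebraMap k L c) - D t / t * Δ₀ (algebraMap k L c) = 0
      rw [hcon, hΔ₀.con]
      ring
    · show D t - D t / t * Δ₀ t = 0
      rw [hΔ₀.self, div_mul_cancel₀ _ ht0, sub_self]
  have h2 : D t / t = 0 := by
    have h3 := h1 s
    rw [hDs, zero_sub, neg_eq_zero] at h3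
    exact (mul_eq_zero.1 h3).resolve_right hs1
  intro x
  have h4 := h1 x
  rw [h2, zero_mul, sub_zero] at h4
  exact h4

/-- the eigenspaces of `Δ` -/
private theorem pee_dec {p : ℕ} [Fact p.Prime] {L : Type} [Field L] [CharP L p] (Δ : L → L)
    (hadd : ∀ x y : L, Δ (x + y) = Δ x + Δ y) (hpow : ∀ x : L, Δ^[p] x = Δ x) (x : L) :
    ∃ y : ZMod p → L, x = ∑ i, y i ∧ (∀ i, Δ (y i) = ((i.val : ℕ) : L) * y i) ∧
      ∀ g : L →+* L, (∀ z, g (Δ z) = Δ (g z)) → g x = x → ∀ i, g (y i) = y i := by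
  have hp : p.Prime := Fact.out
  let _ := ZMod.algebra L p
  have hc : ∀ i : ZMod p, algebraMap (ZMod p) L i = ((i.val : ℕ) : L) := by
    intro i
    conv_lhs => rw [← ZMod.natCast_zmod_val i]
    rw [map_natCast]
  let D : Module.End (ZMod p) L := AddMonoidHom.toZModLinearMap p (AddMonoidHom.mk' Δ hadd)
  have hD : ∀ z, D z = Δ z := fun _ => rfl
  have hDpow : ∀ (m : ℕ) (z : L), (D ^ m) z = Δ^[m] z := by
    intro m z
    rw [Module.End.pow_apply]
    rfl
  let Q : ZMod p → Polynomial (ZMod p) := fun i =>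
    1 - (Polynomial.X - Polynomial.C i) ^ (p - 1)
  have hQ : ∑ i, Q i = 1 := DRH80.proj_sum p
  refine ⟨fun i => (Polynomial.aeval D (Q i)) x, ?_, ?_, ?_⟩
  · rw [← LinearMap.sum_apply, ← map_sum, hQ, map_one]
    rfl
  · intro i
    have h1 : (Polynomial.X - Polynomial.C i) * Q i = Polynomial.X - Polynomial.X ^ p := by
      simp only [Q]
      rw [mul_sub, mul_one, ← pow_succ', Nat.sub_add_cancel hp.one_le, sub_pow_char,
        ← Polynomial.C_pow, ZMod.pow_card]
      ring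
    have h2 := congrArg (fun R => (Polynomial.aeval D R) x) h1
    simp only [map_mul, map_sub, Polynomial.aeval_X, Polynomial.aeval_C, map_pow] at h2
    rw [Module.End.mul_apply, LinearMap.sub_apply, LinearMap.sub_apply, hDpow, hD, hD, hpow,
      sub_self, Module.algebraMap_end_apply, Algebra.smul_def, hc] at h2
    exact sub_eq_zero.mp h2
  · intro g hg hgx i
    let γ : Module.End (ZMod p) L := AddMonoidHom.toZModLinearMap p (g : L →+ L)
    have hγ : ∀ z, γ z = g z := fun _ => rfl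
    have hcomm : Commute γ D := by
      apply LinearMap.ext
      intro z
      exact hg z
    have h3 : Commute γ (Polynomial.aeval D (Q i)) := by
      simp only [Q, map_sub, map_one, map_pow, Polynomial.aeval_X, Polynomial.aeval_C]
      exact (Commute.one_right γ).sub_right
        ((hcomm.sub_right (Algebra.commute_algebraMap_right i γ)).pow_right _)
    have h4 := congrArg (fun F : Module.End (ZMod p) L => F x) h3.eq
    simp only [Module.End.mul_apply, hγ, hgx] at h4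
    exact h4

/-- the orders of `x` and `Δ x` -/
private theorem pee_ord (hVEC : S_VEC) {p e : ℕ} [Fact p.Prime] {k L : Type} [Field k] [Field L]
    [Algebra k L] [CharP L p] (P : Place k L) (s x y : L) (he : 1 ≤ e) (hs0 : s ≠ 0)
    (hs : P.ord s = -(e : ℤ)) (c : ZMod p → L) (hc : ∀ i, c i = 0 ∨ (e : ℤ) ∣ P.ord (c i))
    (hx : x ≠ 0) (hxc : x = ∑ i : ZMod p, (c i) ^ p * s ^ i.val)
    (hy : y = ∑ i : ZMod p, (((i.val : ℕ) : L) * (c i) ^ p) * s ^ i.val) :
    P.Ge y (P.ord x) ∧ ∀ m : ℤ, P.ord x = e * m → ¬ (p : ℤ) ∣ m → y ≠ 0 ∧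
      P.ord y = P.ord x := by
  have hp : p.Prime := Fact.out
  have he0 : (0 : ℤ) < e := by exact_mod_cast he
  have hn : 1 ≤ p * e := Nat.mul_pos hp.pos he
  have hsi : ∀ i : ZMod p, s ^ i.val ≠ 0 := fun i => pow_ne_zero _ hs0
  have hord : ∀ i : ZMod p, P.ord (s ^ i.val) = -((i.val : ℤ) * e) := by
    intro i
    rw [P.ord_pow hs0, hs]
    ring
  have hdist : ∀ i j : ZMod p, i ≠ j →
      ¬ ((p * e : ℕ) : ℤ) ∣ P.ord (s ^ i.val) - P.ord (s ^ j.val) := by
    intro i j hij ⟨q, hq⟩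
    rw [hord, hord] at hq
    push_cast at hq
    have h1 : (e : ℤ) * ((j.val : ℤ) - i.val) = e * (p * q) := by linarith
    have h2 := mul_left_cancel₀ he0.ne' h1
    have h3 : (i.val : ℤ) < p := by exact_mod_cast ZMod.val_lt i
    have h4 : (j.val : ℤ) < p := by exact_mod_cast ZMod.val_lt j
    have h5 : (0 : ℤ) ≤ i.val := Int.natCast_nonneg _
    have h6 : (0 : ℤ) ≤ j.val := Int.natCast_nonneg _
    have h7 : q = 0 := by
      by_contra hq0
      rcases lt_or_gt_of_ne hq0 with h | h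
      · have h8 : q ≤ -1 := by omega
        nlinarith
      · have h8 : 1 ≤ q := by omega
        nlinarith
    rw [h7, mul_zero] at h2
    apply hij
    apply ZMod.val_injective p
    omega
  have hdiv : ∀ i : ZMod p, (c i) ^ p = 0 ∨ ((p * e : ℕ) : ℤ) ∣ P.ord ((c i) ^ p) := by
    intro i
    by_cases hci : c i = 0
    · left
      rw [hci, zero_pow hp.ne_zero]
    · right
      rw [P.ord_pow hci]
      push_cast
      exact mul_dvd_mul_left _ ((hc i).resolve_left hci)
  have hex : ∃ i : ZMod p, (c i) ^ p ≠ 0 := by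
    by_contra hcon
    push Not at hcon
    apply hx
    rw [hxc]
    refine Finset.sum_eq_zero fun i _ => ?_
    rw [hcon i, zero_mul]
  obtain ⟨-, i0, hi0, ho, hmin⟩ := hVEC k L (ZMod p) P (p * e) (fun i => s ^ i.val)
    (fun i => (c i) ^ p) hn hsi hdist hdiv hex
  rw [← hxc] at ho
  rw [← ho] at hmin
  have hnat : ∀ i : ZMod p, i ≠ 0 → ((i.val : ℕ) : L) ≠ 0 ∧ P.ord ((i.val : ℕ) : L) = 0 := by
    intro i hi
    have h1 : ((i.val : ℕ) : L) ≠ 0 := by
      intro h
      rw [CharP.cast_eq_zero_iff L p] at h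
      have h2 := Nat.eq_zero_of_dvd_of_lt h (ZMod.val_lt i)
      exact hi ((ZMod.val_eq_zero i).1 h2)
    refine ⟨h1, ?_⟩
    have h2 : ((i.val : ℕ) : L) = algebraMap k L ((i.val : ℕ) : k) := by rw [map_natCast]
    rw [h2]
    apply P.ord_const
    intro h
    rw [h, map_zero] at h2
    exact h1 h2
  have hc'0 : ∀ i : ZMod p, ((i.val : ℕ) : L) * (c i) ^ p ≠ 0 → (c i) ^ p ≠ 0 ∧
      P.ord (((i.val : ℕ) : L) * (c i) ^ p) = P.ord ((c i) ^ p) := by
    intro i hi
    have h1 : (c i) ^ p ≠ 0 := right_ne_zero_of_mul hi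
    have h2 : i ≠ 0 := by
      rintro rfl
      rw [ZMod.val_zero, Nat.cast_zero, zero_mul] at hi
      exact hi rfl
    refine ⟨h1, ?_⟩
    rw [P.ord_mul _ _ (hnat i h2).1 h1, (hnat i h2).2, zero_add]
  have hdiv' : ∀ i : ZMod p, ((i.val : ℕ) : L) * (c i) ^ p = 0 ∨
      ((p * e : ℕ) : ℤ) ∣ P.ord (((i.val : ℕ) : L) * (c i) ^ p) := by
    intro i
    by_cases hi : ((i.val : ℕ) : L) * (c i) ^ p = 0
    · exact Or.inl hi
    · right
      rw [(hc'0 i hi).2]
      exact (hdiv i).resolve_left (hc'0 i hi).1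
  have hge : P.Ge y (P.ord x) := by
    by_cases hex' : ∃ i : ZMod p, ((i.val : ℕ) : L) * (c i) ^ p ≠ 0
    · obtain ⟨-, i1, hi1, ho1, -⟩ := hVEC k L (ZMod p) P (p * e) (fun i => s ^ i.val)
        (fun i => ((i.val : ℕ) : L) * (c i) ^ p) hn hsi hdist hdiv' hex'
      rw [← hy] at ho1
      right
      have h1 := hmin i1 (hc'0 i1 hi1).1
      have h2 : P.ord (((i1.val : ℕ) : L) * (c i1) ^ p * s ^ i1.val) =
          P.ord ((c i1) ^ p * s ^ i1.val) := by
        rw [P.ord_mul _ _ hi1 (hsi i1), (hc'0 i1 hi1).2,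
          P.ord_mul _ _ (hc'0 i1 hi1).1 (hsi i1)]
      rw [ho1]
      show P.ord x ≤ P.ord (((i1.val : ℕ) : L) * (c i1) ^ p * s ^ i1.val)
      rw [h2]
      exact h1
    · left
      push Not at hex'
      rw [hy]
      refine Finset.sum_eq_zero fun i _ => ?_
      rw [hex' i, zero_mul]
  refine ⟨hge, ?_⟩
  intro m hm hpm
  have hci0 : c i0 ≠ 0 := by
    intro h
    apply hi0
    show c i0 ^ p = 0
    rw [h, zero_pow hp.ne_zero]
  have hi00 : i0 ≠ 0 := by
    rintro rfl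
    apply hpm
    obtain ⟨r, hr⟩ := (hc 0).resolve_left hci0
    have h1 : P.ord x = p * (e * r) := by
      rw [ho]
      show P.ord (c 0 ^ p * s ^ (0 : ZMod p).val) = p * (e * r)
      rw [ZMod.val_zero, pow_zero, mul_one, P.ord_pow hci0, hr]
    rw [hm] at h1
    have h2 : (e : ℤ) * m = e * (p * r) := by linarith
    exact ⟨r, mul_left_cancel₀ he0.ne' h2⟩
  have hi0' : ((i0.val : ℕ) : L) * (c i0) ^ p ≠ 0 := mul_ne_zero (hnat i0 hi00).1 hi0
  obtain ⟨hne1, i1, hi1, ho1, hmin1⟩ := hVEC k L (ZMod p) P (p * e) (fun i => s ^ i.val)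
    (fun i => ((i.val : ℕ) : L) * (c i) ^ p) hn hsi hdist hdiv' ⟨i0, hi0'⟩
  rw [← hy] at hne1 ho1
  refine ⟨hne1, ?_⟩
  have h1 := hge.resolve_left hne1
  have h2 := hmin1 i0 hi0'
  rw [← ho1] at h2
  have h3 : P.ord (((i0.val : ℕ) : L) * (c i0) ^ p * s ^ i0.val) = P.ord x := by
    rw [P.ord_mul _ _ hi0' (hsi i0), (hc'0 i0 hi0').2, ho]
    exact (P.ord_mul _ _ hi0 (hsi i0)).symm
  have h4 : P.ord y ≤ P.ord x := by
    rw [← h3]
    exact h2
  exact le_antisymm h4 h1

theorem pee_thm (hKEP : S_KEP) (hDRV : S_DRV) (hDRU : S_DRU) (hRMX : S_RMX) (hTOT : S_TOT)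
    (hVEC : S_VEC) (hWLD : S_WLD) : S_PEE := by
  intro p k L G _ _ _ _ _ _ ρ t P W H hp hck hcov hPt hW hHW
  haveI : Fact p.Prime := ⟨hp⟩
  haveI := hck
  haveI hL : CharP L p := charP_of_injective_algebraMap (algebraMap k L).injective p
  have hρ := hcov.inj
  obtain ⟨Δ₀, hΔ₀, hcm₀⟩ := hDRV k L G ρ t hcov
  have hHram : ∀ h ∈ H, h ∈ ram P ρ 1 := fun h hh => by
    rw [← hW]
    exact hHW hh
  have hHfix : ∀ h ∈ H, Fixes P (ρ h) := fun h hh => (hHram h hh).1
  obtain ⟨w, hw0, hwH, hword⟩ := hRMX k L G P ρ H H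
    (fun g => ⟨fun h => ⟨h, hHfix g h⟩, fun h => h.1⟩)
  obtain ⟨s, hs⟩ : ∃ s : L, s = w⁻¹ := ⟨_, rfl⟩
  have hs0 : s ≠ 0 := by
    rw [hs]
    exact inv_ne_zero hw0
  have hsH : ∀ h ∈ H, ρ h s = s := fun h hh => by rw [hs, map_inv₀, hwH h hh]
  have hsord : P.ord s = -(Nat.card H : ℤ) := by rw [hs, P.ord_inv hw0, hword]
  have hcard : 0 < Nat.card H := Nat.card_pos
  have ht0 : t ≠ 0 := by
    intro h
    apply hcov.trans
    rw [h]
    exact isAlgebraic_zero
  have hfrob : ∀ (h : G) (y : L), ρ h (y ^ p) = y ^ p → ρ h y = y := by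
    intro h y hy
    rw [map_pow] at hy
    exact frobenius_inj L p (by rw [frobenius_def, frobenius_def]; exact hy)
  have hs1 : Δ₀ s ≠ 0 := by
    intro h
    obtain ⟨y, hy⟩ := hKEP p k L G ρ t Δ₀ hp hck hcov hΔ₀ s h
    have hy0 : y ≠ 0 := by
      rintro rfl
      rw [zero_pow hp.ne_zero] at hy
      exact hs0 hy
    have hyH : ∀ h ∈ H, ρ h y = y := fun g hg => hfrob g y (by rw [← hy]; exact hsH g hg)
    obtain ⟨q, hq⟩ := hTOT k L G P ρ H hρ hHfix y hy0 hyH
    have h2 : P.ord s = p * P.ord y := by rw [hy, P.ord_pow hy0]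
    rw [hsord, hq] at h2
    have h3 : (Nat.card H : ℤ) * (p * q + 1) = 0 := by linarith
    rcases mul_eq_zero.1 h3 with h4 | h4
    · have h5 : Nat.card H = 0 := by exact_mod_cast h4
      omega
    · have h5 : (p : ℤ) ∣ 1 := ⟨-q, by linarith⟩
      have h6 : p ∣ 1 := by exact_mod_cast h5
      exact hp.one_lt.ne' (Nat.dvd_one.1 h6)
  obtain ⟨a, ha⟩ : ∃ a : L, a = s / Δ₀ s := ⟨_, rfl⟩
  have haH : ∀ h ∈ H, ρ h a = a := by
    intro h hh
    rw [ha, map_div₀, ← hcm₀, hsH h hh]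
  have ha0 : a ≠ 0 := by
    rw [ha]
    exact div_ne_zero hs0 hs1
  have hdd : DD k s (fun x => a * Δ₀ x) := by
    refine ⟨?_, ?_, ?_, ?_⟩
    · intro x y
      show a * Δ₀ (x + y) = a * Δ₀ x + a * Δ₀ y
      rw [hΔ₀.add]
      ring
    · intro x y
      show a * Δ₀ (x * y) = x * (a * Δ₀ y) + y * (a * Δ₀ x)
      rw [hΔ₀.mul]
      ring
    · intro c
      show a * Δ₀ (algebraMap k L c) = 0
      rw [hΔ₀.con, mul_zero]
    · show a * Δ₀ s = s
      rw [ha, div_mul_cancel₀ _ hs1]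
  obtain ⟨Δ, hΔ⟩ : ∃ Δ : L → L, Δ = fun x => a * Δ₀ x := ⟨_, rfl⟩
  rw [← hΔ] at hdd
  have hΔ' : ∀ x, Δ x = a * Δ₀ x := fun x => by rw [hΔ]
  have hcm : ∀ h ∈ H, ∀ x : L, Δ (ρ h x) = ρ h (Δ x) := by
    intro h hh x
    rw [hΔ', hΔ', map_mul, haH h hh, hcm₀]
  have h00 : Δ 0 = 0 := by
    have := hdd.add 0 0
    rw [add_zero] at this
    exact left_eq_add.mp this
  let D : L →+ L := { toFun := Δ, map_zero' := h00, map_add' := hdd.add }
  have hD : ∀ x, D x = Δ x := fun _ => rfl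
  have hDc : (⇑D : L → L) = Δ := rfl
  obtain ⟨hit1, hit2⟩ := pee_iter (p := p) hp D hdd.mul
  rw [hDc] at hit1 hit2
  have hconn : ∀ (n : ℕ) (c : k), Δ^[n + 1] (algebraMap k L c) = 0 := by
    intro n c
    induction n with
    | zero => exact hdd.con c
    | succ n ih => rw [Function.iterate_succ_apply', ih, h00]
  have hself : ∀ n : ℕ, Δ^[n] s = s := by
    intro n
    induction n with
    | zero => rfl
    | succ n ih =>
      rw [Function.iterate_succ_apply', ih]
      exact hdd.self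
  have hdp : ∀ x : L, Δ^[p] x = Δ x := by
    intro x
    have key := pee_zero hDRU ρ t s Δ₀ (fun x => Δ^[p] x - Δ x) hcov hΔ₀ hs1
      (fun x y => by
        show Δ^[p] (x + y) - Δ (x + y) = (Δ^[p] x - Δ x) + (Δ^[p] y - Δ y)
        rw [hit1, hdd.add]
        ring)
      (fun x y => by
        show Δ^[p] (x * y) - Δ (x * y) = x * (Δ^[p] y - Δ y) + y * (Δ^[p] x - Δ x)
        rw [hit2, hdd.mul]
        ring)
      (fun c => by
        show Δ^[p] (algebraMap k L c) - Δ (algebraMap k L c) = 0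
        have h1 := hconn (p - 1) c
        rw [Nat.sub_add_cancel hp.one_le] at h1
        rw [h1, hdd.con, sub_zero])
      (by
        show Δ^[p] s - Δ s = 0
        rw [hself, hdd.self, sub_self])
      ht0 x
    exact sub_eq_zero.mp key
  have hcd : ∃ n : ℕ, Nat.card H = p ^ n := by
    obtain ⟨W', I', hW', -, -, ⟨n, hn⟩, -⟩ := hWLD p k L G P ρ hp hck hρ
    have hWW : W' = W := SetLike.coe_injective (hW'.trans hW.symm)
    have h1 : Nat.card H ∣ p ^ n := by
      rw [← hn, hWW]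
      exact Subgroup.card_dvd_of_le hHW
    obtain ⟨j, -, hj⟩ := (Nat.dvd_prime_pow hp).1 h1
    exact ⟨j, hj⟩
  have hbase : ∀ x : L, x ≠ 0 → (∀ h ∈ H, ρ h x = x) → P.Ge (Δ x) (P.ord x) ∧
      ∀ m : ℤ, P.ord x = Nat.card H * m → ¬ (p : ℤ) ∣ m → Δ x ≠ 0 ∧
        P.ord (Δ x) = P.ord x := by
    intro x hx0 hxH
    obtain ⟨y, hy1, hy2, hy3⟩ := pee_dec Δ hdd.add hdp x
    have hz : ∀ i : ZMod p, Δ₀ (y i / s ^ i.val) = 0 := by
      intro i
      have hsi : s ^ i.val ≠ 0 := pow_ne_zero _ hs0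
      have h1 : Δ (y i / s ^ i.val * s ^ i.val) =
          y i / s ^ i.val * Δ (s ^ i.val) + s ^ i.val * Δ (y i / s ^ i.val) := hdd.mul _ _
      rw [pee_spow Δ hdd.mul s hdd.self, div_mul_cancel₀ _ hsi, hy2] at h1
      have h2 : y i / s ^ i.val * (((i.val : ℕ) : L) * s ^ i.val) = ((i.val : ℕ) : L) * y i := by
        rw [mul_left_comm, div_mul_cancel₀ _ hsi]
      rw [h2, left_eq_add, mul_eq_zero] at h1
      have h3 := h1.resolve_left hsi
      rw [hΔ', mul_eq_zero] at h3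
      exact h3.resolve_left ha0
    choose c hc using fun i => hKEP p k L G ρ t Δ₀ hp hck hcov hΔ₀ _ (hz i)
    have hcy : ∀ i, y i = (c i) ^ p * s ^ i.val := by
      intro i
      rw [← hc i, div_mul_cancel₀ _ (pow_ne_zero _ hs0)]
    have hcH : ∀ i, ∀ h ∈ H, ρ h (c i) = c i := by
      intro i h hh
      apply hfrob
      rw [← hc i, map_div₀, map_pow, hsH h hh]
      congr 1
      exact hy3 ((ρ h : L ≃ₐ[k] L) : L →+* L) (fun z => (hcm h hh z).symm) (hxH h hh) i
    have hc' : ∀ i, c i = 0 ∨ (Nat.card H : ℤ) ∣ P.ord (c i) := by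
      intro i
      by_cases hci : c i = 0
      · exact Or.inl hci
      · exact Or.inr (hTOT k L G P ρ H hρ hHfix (c i) hci (hcH i))
    refine pee_ord hVEC P s x (Δ x) hcard hs0 hsord c hc' hx0 ?_ ?_
    · rw [hy1]
      exact Finset.sum_congr rfl fun i _ => hcy i
    · conv_lhs => rw [hy1]
      rw [← hD, map_sum]
      refine Finset.sum_congr rfl fun i _ => ?_
      rw [hD, hy2, hcy]
      ring
  refine ⟨s, Δ, ?_⟩
  exact {
    pr := hp
    ch := hck
    cd := hcd
    inj := fun x y hxy => Subtype.ext (hρ hxy)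
    ram := Set.eq_univ_of_forall fun h => hHram h.1 h.2
    tf := fun h => hsH h.1 h.2
    ot := hsord
    dd := hdd
    cm := fun h x => hcm h.1 h.2 x
    dp := hdp
    base := fun x hx0 hxH => hbase x hx0 fun h hh => hxH ⟨h, hh⟩ }

end Pool.CND
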